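import Pool.Agent.H23.GZ.Targets5

/-!
Row EUL: the Euler operator on test functions and their Fourier transforms.
-/

set_option autoImplicit false

namespace Pool.Agent.H84.GZ

open MeasureTheory Pool.Agent.H34.GM Pool.Agent.H34.GZ

/-- the function on `V m` -/
def fV {m : ℕ} (Φ : Mat m → ℂ) (z : V m) : ℂ := Φ (mt z)

theorem eul_deriv {m : ℕ} {Φ : Mat m → ℂ} (h : TstS m Φ) (z : V m) :
    HasDerivAt (fun c : ℝ => Φ (c • mt z)) (fderiv ℝ (fV Φ) z z) 1 := by
  have h1 : HasFDerivAt (fV Φ) (fderiv ℝ (fV Φ) z) ((1 : ℝ) • z) := by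
    rw [one_smul]
    exact ((h.smooth.differentiable (by simp)) z).hasFDerivAt
  have h2 : HasDerivAt (fun c : ℝ => c • z) z 1 := by
    have := (hasDerivAt_id (1 : ℝ)).smul_const z
    simpa using this
  exact h1.comp_hasDerivAt (1 : ℝ) h2

theorem eu_eq {m : ℕ} {Φ : Mat m → ℂ} (h : TstS m Φ) (z : V m) :
    eu Φ (mt z) = fderiv ℝ (fV Φ) z z := (eul_deriv h z).deriv

theorem eu_smooth {m : ℕ} {Φ : Mat m → ℂ} (h : TstS m Φ) :
    ContDiff ℝ ((⊤ : ℕ∞) : WithTop ℕ∞) (fun z : V m => eu Φ (mt z)) := by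
  have h1 : (fun z : V m => eu Φ (mt z)) = fun z : V m => fderiv ℝ (fV Φ) z z :=
    funext (eu_eq h)
  rw [h1]
  have h2 : ContDiff ℝ ((⊤ : ℕ∞) : WithTop ℕ∞) (fderiv ℝ (fV Φ)) :=
    ContDiff.fderiv_right (m := ((⊤ : ℕ∞) : WithTop ℕ∞)) h.smooth (by simp)
  exact h2.clm_apply contDiff_id

theorem eu_cs {m : ℕ} {Φ : Mat m → ℂ} (h : TstS m Φ) :
    HasCompactSupport (fun z : V m => eu Φ (mt z)) := by
  have h1 : (fun z : V m => eu Φ (mt z)) = fun z : V m => fderiv ℝ (fV Φ) z z :=
    funext (eu_eq h)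
  rw [h1]
  have h2 : HasCompactSupport (fV Φ) := h.comp
  refine (h2.fderiv ℝ).mono fun z hz => ?_
  rw [Function.mem_support] at hz ⊢
  intro h3
  rw [h3] at hz
  exact hz rfl

theorem eu_supp {m : ℕ} {Φ : Mat m → ℂ} (h : TstS m Φ) {c : ℝ}
    (hc : ∀ z, Φ z ≠ 0 → sz z ≤ c ∧ c⁻¹ ≤ |z.det|) (z : Mat m) (hz : eu Φ z ≠ 0) :
    sz z ≤ c ∧ c⁻¹ ≤ |z.det| := by
  have hz1 : fderiv ℝ (fV Φ) (fun i j => z i j) (fun i j => z i j) ≠ 0 := by
    rw [← eu_eq h]
    exact hz
  have h1 : (fun i j => z i j : V m) ∈ Function.support (fderiv ℝ (fV Φ)) := by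
    rw [Function.mem_support]
    intro h3
    rw [h3] at hz1
    exact hz1 rfl
  have h2 := support_fderiv_subset ℝ h1
  have hcl : IsClosed {z : V m | sz (mt z) ≤ c ∧ c⁻¹ ≤ |(mt z).det|} := by
    have c1 : Continuous (fun z : V m => sz (mt z)) := continuous_norm
    have c2 : Continuous (fun z : V m => |(mt z).det|) :=
      (Continuous.matrix_det (A := fun z : V m => mt z) continuous_id).abs
    have e1 : IsClosed {z : V m | sz (mt z) ≤ c} := isClosed_le c1 continuous_const
    have e2 : IsClosed {z : V m | c⁻¹ ≤ |(mt z).det|} := isClosed_le continuous_const c2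
    exact e1.inter e2
  have h3 : tsupport (fV Φ) ⊆ {z : V m | sz (mt z) ≤ c ∧ c⁻¹ ≤ |(mt z).det|} :=
    closure_minimal (fun z hz => hc (mt z) hz) hcl
  exact h3 h2

theorem eu_left {m : ℕ} {Φ : Mat m → ℂ} (h : TstS m Φ) (u : Mat m) (hu : u * u.transpose = 1)
    (z : Mat m) : eu Φ (u * z) = eu Φ z := by
  unfold eu
  congr 1
  funext c
  rw [← Matrix.mul_smul]
  exact h.left u hu _

theorem eu_right {m : ℕ} {Φ : Mat m → ℂ} (h : TstS m Φ) (u : Mat m) (hu : u * u.transpose = 1)
    (z : Mat m) : eu Φ (z * u) = eu Φ z := by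
  unfold eu
  congr 1
  funext c
  rw [← Matrix.smul_mul]
  exact h.right u hu _

theorem eu_tst {m : ℕ} {Φ : Mat m → ℂ} (h : TstS m Φ) : TstS m (eu Φ) where
  cont := (eu_smooth h).continuous
  supp := by
    obtain ⟨c, hc0, hc⟩ := h.supp
    exact ⟨c, hc0, eu_supp h hc⟩
  left := eu_left h
  right := eu_right h
  smooth := eu_smooth h
  comp := eu_cs h

theorem eu2_tst {m : ℕ} {Φ : Mat m → ℂ} (h : TstS m Φ) : TstS m (eu2 Φ) where
  cont := ((continuous_const.mul h.cont).add (eu_tst h).cont).neg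
  supp := by
    obtain ⟨c, hc0, hc⟩ := h.supp
    refine ⟨c, hc0, fun z hz => ?_⟩
    by_cases h1 : Φ z = 0
    · by_cases h2 : eu Φ z = 0
      · exfalso
        apply hz
        unfold eu2
        rw [h1, h2]
        simp
      · exact eu_supp h hc z h2
    · exact hc z h1
  left := fun u hu z => by
    unfold eu2
    rw [h.left u hu, eu_left h u hu]
  right := fun u hu z => by
    unfold eu2
    rw [h.right u hu, eu_right h u hu]
  smooth := by
    have h1 := ((contDiff_const (c := ((m : ℂ) ^ 2))).mul h.smooth).add (eu_tst h).smooth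
    exact h1.neg
  comp := by
    have h1 : HasCompactSupport (fun z : V m => (m : ℂ) ^ 2 * Φ (mt z)) := h.comp.mul_left
    exact (h1.add (eu_cs h)).neg

/-- the exponential -/
noncomputable def eE {m : ℕ} (w : Mat m) (z : V m) : ℂ := ee (-(w * mt z).trace)

theorem ee_norm (x : ℝ) : ‖ee x‖ = 1 := by
  unfold ee
  rw [Complex.norm_exp]
  simp

theorem ee_cont : Continuous ee := by
  unfold ee
  fun_prop

theorem tr_cont {m : ℕ} (w : Mat m) : Continuous (fun z : V m => (w * mt z).trace) := by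
  refine Continuous.matrix_trace ?_
  exact Continuous.matrix_mul continuous_const continuous_id

theorem eE_cont {m : ℕ} (w : Mat m) : Continuous (eE w) := ee_cont.comp (tr_cont w).neg

theorem ft_scale {m : ℕ} (Φ : Mat m → ℂ) (w : Mat m) (c : ℝ) (hc : 0 < c) :
    ft Φ (c • w) = ((c ^ (m ^ 2))⁻¹ : ℝ) * ∫ z : V m, fV Φ (c⁻¹ • z) * eE w z := by
  have h1 := Measure.integral_comp_inv_smul (volume : Measure (V m))
    (fun z : V m => Φ (mt z) * ee (-((c • w) * mt z).trace)) c
  have h2 : Module.finrank ℝ (V m) = m ^ 2 := by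
    rw [Module.finrank_pi_fintype]
    simp [sq]
  have h3 : ∀ z : V m, Φ (mt (c⁻¹ • z)) * ee (-((c • w) * mt (c⁻¹ • z)).trace) =
      fV Φ (c⁻¹ • z) * eE w z := by
    intro z
    have h4 : (c • w) * mt (c⁻¹ • z) = w * mt z := by
      have h5 : mt (c⁻¹ • z) = c⁻¹ • mt z := rfl
      rw [h5, Matrix.smul_mul, Matrix.mul_smul, smul_smul, mul_inv_cancel₀ hc.ne', one_smul]
    unfold fV eE
    rw [h4]
  simp only [h3] at h1
  rw [h2, abs_of_pos (pow_pos hc _)] at h1
  rw [h1]
  unfold ft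
  have h6 : (c ^ (m ^ 2) : ℝ) ≠ 0 := (pow_pos hc _).ne'
  rw [Complex.real_smul, ← mul_assoc, ← Complex.ofReal_mul, inv_mul_cancel₀ h6]
  simp

theorem int_deriv {m : ℕ} {Φ : Mat m → ℂ} (h : TstS m Φ) (w : Mat m) :
    HasDerivAt (fun c : ℝ => ∫ z : V m, fV Φ (c⁻¹ • z) * eE w z)
      (∫ z : V m, -(fderiv ℝ (fV Φ) z z) * eE w z) 1 := by
  have hsm : ContDiff ℝ ((⊤ : ℕ∞) : WithTop ℕ∞) (fV Φ) := h.smooth
  have hcs : HasCompactSupport (fV Φ) := h.comp
  have hfc : Continuous (fderiv ℝ (fV Φ)) := hsm.continuous_fderiv (by simp)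
  obtain ⟨B, hB⟩ := (hcs.fderiv ℝ).exists_bound_of_continuous hfc
  have hB0 : 0 ≤ B := (norm_nonneg _).trans (hB 0)
  obtain ⟨R, hR⟩ := (hcs.isCompact.isBounded).subset_closedBall (0 : V m)
  have key := hasDerivAt_integral_of_dominated_loc_of_deriv_le (μ := (volume : Measure (V m)))
    (F := fun (c : ℝ) (z : V m) => fV Φ (c⁻¹ • z) * eE w z)
    (F' := fun (c : ℝ) (z : V m) => (fderiv ℝ (fV Φ) (c⁻¹ • z) ((-(c ^ 2)⁻¹) • z)) * eE w z)
    (x₀ := (1 : ℝ)) (s := Metric.ball 1 (1 / 2))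
    (bound := Set.indicator (Metric.closedBall (0 : V m) (2 * R)) (fun z => B * (4 * ‖z‖)))
    (Metric.ball_mem_nhds _ (by norm_num)) ?_ ?_ ?_ ?_ ?_ ?_
  · have h1 := key.2
    simp only [one_pow, inv_one, one_smul, neg_smul, map_neg] at h1
    exact h1
  · refine Filter.Eventually.of_forall fun c => Continuous.aestronglyMeasurable ?_
    exact (hsm.continuous.comp (continuous_const_smul c⁻¹)).mul (eE_cont w)
  · simp only [inv_one, one_smul]
    exact (hsm.continuous.mul (eE_cont w)).integrable_of_hasCompactSupport hcs.mul_right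
  · refine Continuous.aestronglyMeasurable ?_
    refine Continuous.mul ?_ (eE_cont w)
    exact (hfc.comp (continuous_const_smul _)).clm_apply (continuous_const_smul _)
  · refine Filter.Eventually.of_forall fun z c hc => ?_
    rw [Metric.mem_ball, Real.dist_eq, abs_lt] at hc
    have hc1 : (1 / 2 : ℝ) < c := by linarith [hc.1]
    have hc2 : c < 3 / 2 := by linarith [hc.2]
    have hn : ‖eE w z‖ = 1 := ee_norm _
    rw [norm_mul, hn, mul_one]
    by_cases hz : z ∈ Metric.closedBall (0 : V m) (2 * R)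
    · rw [Set.indicator_of_mem hz]
      refine (ContinuousLinearMap.le_opNorm _ _).trans ?_
      refine mul_le_mul (hB _) ?_ (norm_nonneg _) hB0
      rw [norm_smul]
      refine mul_le_mul_of_nonneg_right ?_ (norm_nonneg _)
      rw [norm_neg, norm_inv, Real.norm_eq_abs, abs_of_pos (by positivity)]
      rw [inv_le_comm₀ (by positivity) (by norm_num)]
      nlinarith
    · rw [Set.indicator_of_notMem hz]
      have h1 : fderiv ℝ (fV Φ) (c⁻¹ • z) = 0 := by
        by_contra h2
        have h3 := support_fderiv_subset ℝ (Function.mem_support.2 h2)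
        have h4 := hR h3
        rw [mem_closedBall_zero_iff, norm_smul, norm_inv, Real.norm_eq_abs,
          abs_of_pos (by linarith)] at h4
        apply hz
        rw [mem_closedBall_zero_iff]
        have h5 : ‖z‖ ≤ c * R := by
          rw [inv_mul_le_iff₀ (by linarith)] at h4
          exact h4
        have hR0 : 0 ≤ R := by
          by_contra hneg
          rw [not_le] at hneg
          nlinarith [norm_nonneg z]
        nlinarith
      rw [h1]
      simp
  · refine (integrable_indicator_iff Metric.isClosed_closedBall.measurableSet).2 ?_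
    refine ContinuousOn.integrableOn_compact (isCompact_closedBall _ _) ?_
    exact (continuous_const.mul (continuous_const.mul continuous_norm)).continuousOn
  · refine Filter.Eventually.of_forall fun z c hc => ?_
    rw [Metric.mem_ball, Real.dist_eq, abs_lt] at hc
    have hc0 : c ≠ 0 := by
      have : (1 / 2 : ℝ) < c := by linarith [hc.1]
      linarith
    have h1 : HasDerivAt (fun c : ℝ => c⁻¹ • z) ((-(c ^ 2)⁻¹) • z) c :=
      (hasDerivAt_inv hc0).smul_const z
    have h2 : HasFDerivAt (fV Φ) (fderiv ℝ (fV Φ) (c⁻¹ • z)) (c⁻¹ • z) :=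
      ((hsm.differentiable (by simp)) _).hasFDerivAt
    exact (h2.comp_hasDerivAt c h1).mul_const _

theorem ft_deriv {m : ℕ} {Φ : Mat m → ℂ} (h : TstS m Φ) (w : Mat m) :
    HasDerivAt (fun c : ℝ => ft Φ (c • w)) (ft (eu2 Φ) w) 1 := by
  have h1 := int_deriv h w
  have h2 : HasDerivAt (fun c : ℝ => (((c ^ (m ^ 2))⁻¹ : ℝ) : ℂ))
      (((-((m ^ 2 : ℕ) : ℝ)) : ℝ) : ℂ) 1 := by
    have h3 := (hasDerivAt_pow (m ^ 2) (1 : ℝ)).inv (by simp)
    have h4 := h3.ofReal_comp
    simpa using h4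
  have h5 := h2.mul h1
  have hint : Integrable (fun z : V m => fV Φ z * eE w z) := by
    have hsm : ContDiff ℝ ((⊤ : ℕ∞) : WithTop ℕ∞) (fV Φ) := h.smooth
    have hcs : HasCompactSupport (fV Φ) := h.comp
    exact (hsm.continuous.mul (eE_cont w)).integrable_of_hasCompactSupport hcs.mul_right
  have hint2 : Integrable (fun z : V m => -(fderiv ℝ (fV Φ) z z) * eE w z) := by
    have e : (fun z : V m => -(fderiv ℝ (fV Φ) z z) * eE w z) =
        fun z : V m => -(eu Φ (mt z)) * eE w z := by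
      funext z
      rw [eu_eq h]
    rw [e]
    refine Continuous.integrable_of_hasCompactSupport
      ((eu_smooth h).continuous.neg.mul (eE_cont w)) ?_
    exact (eu_cs h).neg.mul_right
  have h6 : ft (eu2 Φ) w = (((-((m ^ 2 : ℕ) : ℝ)) : ℝ) : ℂ) *
      (∫ z : V m, fV Φ ((1 : ℝ)⁻¹ • z) * eE w z) +
      (((((1 : ℝ) ^ (m ^ 2))⁻¹ : ℝ)) : ℂ) *
        ∫ z : V m, -(fderiv ℝ (fV Φ) z z) * eE w z := by
    simp only [inv_one, one_smul, one_pow, Complex.ofReal_one, one_mul]
    rw [← integral_const_mul, ← integral_add (hint.const_mul _) hint2]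
    unfold ft
    refine integral_congr_ae (Filter.Eventually.of_forall fun z => ?_)
    show eu2 Φ (mt z) * ee (-(w * mt z).trace) = _
    unfold eu2 eE fV
    rw [eu_eq h]
    unfold fV
    push_cast
    ring
  rw [h6]
  refine h5.congr_of_eventuallyEq ?_
  filter_upwards [lt_mem_nhds (show (0 : ℝ) < 1 by norm_num)] with c hc
  exact ft_scale Φ w c hc

/-- EUL: the Euler operator on test functions and their Fourier transforms -/
theorem pf_EUL : T_EUL := by
  intro m _ Φ h
  refine ⟨eu_tst h, eu2_tst h, fun z => ?_, fun w => ?_⟩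
  · have h1 := eul_deriv h (fun i j => z i j)
    have h2 : eu Φ z = fderiv ℝ (fV Φ) (fun i j => z i j) (fun i j => z i j) :=
      eu_eq h (fun i j => z i j)
    rw [h2]
    exact h1
  · exact (Complex.conjCLE : ℂ →L[ℝ] ℂ).hasFDerivAt.comp_hasDerivAt (1 : ℝ) (ft_deriv h w)

end Pool.Agent.H84.GZ
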